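import Pool.Agent.Helper75.Slab.Lag
import Pool.Agent.Helper78.Slab.FL1
import Pool.Agent.Helper97.Slab.FL2
import Pool.Agent.Helper83.Slab.FL3
import Pool.Agent.Helper94.Slab.FD
import Pool.Agent.Helper32.Slab.DET
import Pool.Agent.Helper33.Slab.AJ
import Pool.Agent.Helper5.Slab.Vort
import Pool.Agent.Helper60.Slab.DIV
import Pool.Agent.Helper3.Slab.V0A
import Pool.Agent.Helper6.Slab.CONV
import Pool.Agent.Helper69.Slab.WALL
import Pool.Agent.Helper29.Slab.Curve
import Pool.Agent.Helper82.Slab.LABEL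
import Pool.Agent.Helper28.Slab.Disp
import Pool.Agent.Helper89.Slab.V0B
import Pool.Agent.Helper19.Slab.Drift
import Pool.Agent.Helper48.Slab.Ener

set_option autoImplicit false

open Set

namespace Pool.Agent.Helper75.Slab

theorem hFL1 : Pool.Agent.Helper75.Flow.G_FL1 := Pool.Agent.Helper78.Slab.thm
theorem hFL2 : Pool.Agent.Helper75.Flow.G_FL2 := Pool.Agent.Helper97.Slab.FL2.thm
theorem hFL3 : Pool.Agent.Helper75.Flow.G_FL3 := Pool.Agent.Helper83.Slab.FL3.thm hFL1
theorem hFD : Pool.Agent.Helper75.Flow.G_FD := Pool.Agent.Helper94.Slab.thm hFL2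
theorem hDET : Pool.Agent.Helper75.Flow.G_DET := Pool.Agent.Helper32.Slab.DET.thm
theorem hAJ : Pool.Agent.Helper75.Flow.G_AJ := Pool.Agent.Helper33.Slab.thm hFL2
theorem hVORT : Pool.Agent.Helper75.Flow.G_VORT := Pool.Agent.Helper5.Slab.thm hAJ
theorem hDIV : G_DIV := Pool.Agent.Helper60.SlabDIV.thm
theorem hV0A : G_V0A := Pool.Agent.Helper3.Slab.thm
theorem hV0B : G_V0B := Pool.Agent.Helper89.Slab.thm
theorem hCONV : G_CONV := Pool.Agent.Helper6.Slab.conv
theorem hWALL : G_WALL := Pool.Agent.Helper69.Slab.WALL.thm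
theorem hCURVE : G_CURVE := Pool.Agent.Helper29.Slab.thm hFL1 hFL3
theorem hLABEL : G_LABEL := Pool.Agent.Helper82.Slab.thm hCURVE
theorem hDISP : G_DISP := Pool.Agent.Helper28.SlabDisp.disp
theorem hENER : G_ENER := Pool.Agent.Helper48.Slab.thm_ENER hDIV
theorem hDRIFT : G_DRIFT := Pool.Agent.Helper19.Slab.thm hENER
theorem hLAG : G_LAG := lag hFL1 hFL2 hFD hDET hVORT hCONV hWALL

end Pool.Agent.Helper75.Slab
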