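import Mathlib

set_option autoImplicit false

open Set

namespace Pool.Agent.Helper75.Slab

/-- Points and vectors of three-space; `‖x‖` is the maximum norm. -/
abbrev E := Fin 3 → ℝ

/-- The closed slab: the closure of the fluid domain `{x | 0 < x 2 < 1}`. -/
def M : Set E := {x | 0 ≤ x 2 ∧ x 2 ≤ 1}

/-- The `j`-th partial derivative of a function on the closed slab (one-sided on the two walls
`x 2 = 0` and `x 2 = 1`). -/
noncomputable def pd (j : Fin 3) (f : E → ℝ) (x : E) : ℝ :=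
  fderivWithin ℝ f M x (Pi.single j 1)

/-- `v` and `w` are at distance at most `r` in the `C^1` norm on the closed slab (supremum over
the slab of all components and of all their first partial derivatives). -/
def Close (r : ℝ) (v w : E → E) : Prop :=
  ∀ i, ∀ x ∈ M, |v x i - w x i| ≤ r ∧
    ∀ j, |pd j (fun z => v z i) x - pd j (fun z => w z i) x| ≤ r

/-- `v` is a bounded divergence-free vector field of class `C^1` up to the boundary, with bounded
first derivatives, tangent to the two walls. -/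
def IsVelocity (v : E → E) : Prop :=
  (∀ i, ContDiffOn ℝ 1 (fun x => v x i) M) ∧
  (∃ C : ℝ, Close C v 0) ∧
  (∀ x ∈ M, ∑ i, pd i (fun z => v z i) x = 0) ∧
  (∀ x ∈ M, x 2 = 0 ∨ x 2 = 1 → v x 2 = 0)

/-- `u` is a classical solution on `[0,t]` of the incompressible Euler equations on the slab. The
last condition on the pressure (its oscillation over a distance `R` is `o(R)`, uniformly) is the usual
one for velocities that do not decay: it forbids an imposed uniform pressure gradient. -/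
def IsEulerSolution (t : ℝ) (u : ℝ → E → E) : Prop :=
  (∀ s ∈ Icc 0 t, IsVelocity (u s)) ∧
  (∃ C : ℝ, ∀ s ∈ Icc 0 t, Close C (u s) 0) ∧
  (∀ i, ContinuousOn (fun z : ℝ × E => u z.1 z.2 i) (Icc 0 t ×ˢ M)) ∧
  (∀ i j, ContinuousOn (fun z : ℝ × E => pd j (fun x => u z.1 x i) z.2) (Icc 0 t ×ˢ M)) ∧
  ∃ p : ℝ → E → ℝ,
    (∀ s ∈ Icc 0 t, ContDiffOn ℝ 2 (p s) M) ∧
    (∀ i, ContinuousOn (fun z : ℝ × E => pd i (p z.1) z.2) (Icc 0 t ×ˢ M)) ∧
    (∀ i j, ContinuousOn (fun z : ℝ × E => pd j (pd i (p z.1)) z.2) (Icc 0 t ×ˢ M)) ∧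
    (∀ δ : ℝ, 0 < δ → ∃ C : ℝ, ∀ s ∈ Icc 0 t, ∀ x ∈ M, ∀ y ∈ M,
      |p s x - p s y| ≤ δ * ‖x - y‖ + C) ∧
    ∀ s ∈ Icc 0 t, ∀ x ∈ M, ∀ i, HasDerivWithinAt (fun τ => u τ x i)
      (-(∑ j, u s x j * pd j (fun y => u s y i) x) - pd i (p s) x) (Icc 0 t) s

end Pool.Agent.Helper75.Slab
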