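import Pool.Agent.Helper75.Slab.Goals

set_option autoImplicit false

open Set MeasureTheory

namespace Pool.Agent.Helper75.Slab

theorem core_sub_O (j : ℤ × ℤ) : Core j ⊆ O := fun _ h => h.1

theorem core_open : IsOpen (Core (0, 0)) := by
  have h1 : IsOpen O := by
    apply IsOpen.inter
    · exact isOpen_lt continuous_const (continuous_apply 2)
    · exact isOpen_lt (continuous_apply 2) continuous_const
  have h2 : IsOpen {x : E | dist2 (0, 0) x < 9 / 10} :=
    isOpen_lt (by unfold dist2; fun_prop) continuous_const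
  exact h1.inter h2

theorem qv_pos : 0 < qv := by
  apply ENNReal.toReal_pos
  · apply (core_open.measure_pos volume _).ne'
    refine ⟨![0, 0, 1 / 2], ?_, ?_⟩
    · constructor <;> norm_num [Matrix.cons_val_two, Matrix.tail_cons, Matrix.head_cons]
    · simp [dist2]
  · apply ne_of_lt
    refine lt_of_le_of_lt (measure_mono (t := Metric.closedBall 0 1) ?_) measure_closedBall_lt_top
    intro x hx
    rw [mem_closedBall_zero_iff, pi_norm_le_iff_of_nonneg zero_le_one]
    intro i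
    rw [Real.norm_eq_abs]
    have h := hx.2
    have h1 := hx.1
    simp only [dist2, Int.cast_zero, mul_zero, sub_zero] at h
    fin_cases i
    · show |x 0| ≤ 1
      rw [abs_le]; constructor <;> nlinarith [sq_nonneg (x 1)]
    · show |x 1| ≤ 1
      rw [abs_le]; constructor <;> nlinarith [sq_nonneg (x 0)]
    · show |x 2| ≤ 1
      rw [abs_le]; constructor
      · linarith [h1.1]
      · exact h1.2.le

theorem jn_pos (n : ℕ) : 0 < (Jn n).card := by
  apply Finset.card_pos.2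
  exact ⟨(4 ^ n, 0), by simp [Jn]⟩

theorem curl_close {r : ℝ} {v w : E → E} (h : Close r v w) {x : E} (hx : x ∈ M) (k : Fin 3) :
    |curl v x k - curl w x k| ≤ 2 * r := by
  have key : ∀ a b c d : ℝ, |a - c| ≤ r → |b - d| ≤ r → |(a - b) - (c - d)| ≤ 2 * r := by
    intro a b c d h1 h2
    rw [abs_le] at *
    constructor <;> linarith
  fin_cases k
  · exact key _ _ _ _ ((h 2 x hx).2 1) ((h 1 x hx).2 2)
  · exact key _ _ _ _ ((h 0 x hx).2 2) ((h 2 x hx).2 0)
  · exact key _ _ _ _ ((h 1 x hx).2 0) ((h 0 x hx).2 1)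

theorem uniqueDiffOn_M : UniqueDiffOn ℝ M := by
  apply uniqueDiffOn_convex
  · apply Convex.inter
    · exact (convex_halfSpace_ge (f := fun x : E => x 2) ⟨fun _ _ => rfl, fun _ _ => rfl⟩ 0)
    · exact (convex_halfSpace_le (f := fun x : E => x 2) ⟨fun _ _ => rfl, fun _ _ => rfl⟩ 1)
  · refine ⟨![0, 0, 1 / 2], ?_⟩
    rw [mem_interior]
    refine ⟨O, fun x hx => ⟨hx.1.le, hx.2.le⟩, ?_, ?_⟩
    · apply IsOpen.inter
      · exact isOpen_lt continuous_const (continuous_apply 2)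
      · exact isOpen_lt (continuous_apply 2) continuous_const
    · constructor <;> norm_num [Matrix.cons_val_two, Matrix.tail_cons, Matrix.head_cons]

theorem continuousOn_pd {f : E → ℝ} (hf : ContDiffOn ℝ 1 f M) (j : Fin 3) :
    ContinuousOn (pd j f) M := by
  have h := hf.continuousOn_fderivWithin uniqueDiffOn_M le_rfl
  exact h.clm_apply continuousOn_const

theorem continuousOn_curl {v : E → E} (hv : IsVelocity v) : ContinuousOn (curl v) M := by
  rw [continuousOn_pi]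
  intro k
  fin_cases k
  · exact (continuousOn_pd (hv.1 2) 1).sub (continuousOn_pd (hv.1 1) 2)
  · exact (continuousOn_pd (hv.1 0) 2).sub (continuousOn_pd (hv.1 2) 0)
  · exact (continuousOn_pd (hv.1 1) 0).sub (continuousOn_pd (hv.1 0) 1)

theorem main (hLAG : G_LAG) (hLABEL : G_LABEL) (hDISP : G_DISP) (hDRIFT : G_DRIFT) (hV0 : G_V0B) :
    ∀ t : ℝ, 1 ≤ t → ∀ u : ℝ → E → E, IsEulerSolution t u →
      Close (1 / 200) (u 0) v0 → ¬ Close (1 / 200) (u t) v0 := by
  intro t ht u hu h0 h1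
  have ht0 : 0 ≤ t := by linarith
  obtain ⟨hv0, hvc, hvh, hvcore, hvout, hven⟩ := hV0
  obtain ⟨K, C, φ, J, hK, huK, hφ0, hφd, hφc, hφ, hJ⟩ := hLAG t u ht0 hu
  have htt : t ∈ Icc (0 : ℝ) t := ⟨ht0, le_rfl⟩
  have h00 : (0 : ℝ) ∈ Icc (0 : ℝ) t := ⟨le_rfl, ht0⟩
  obtain ⟨hφM, hφO, hφinj, hφlip, hφw0, hφw1, hφdisp, hφvol⟩ := hφ t htt
  have hw0 : ∀ x ∈ M, |curl (u 0) x 0| ≤ 1 / 100 ∧ |curl (u 0) x 1| ≤ 1 / 100 ∧
      |curl (u 0) x 2 - curl v0 x 2| ≤ 1 / 100 := by
    intro x hx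
    have := curl_close h0 hx
    refine ⟨?_, ?_, ?_⟩
    · have h := this 0
      rw [(hvh x hx).1] at h
      simpa using h.trans (by norm_num)
    · have h := this 1
      rw [(hvh x hx).2] at h
      simpa using h.trans (by norm_num)
    · exact (this 2).trans (by norm_num)
  have hw1 : ∀ x ∈ M, |curl (u t) x 0| ≤ 1 / 100 ∧ |curl (u t) x 1| ≤ 1 / 100 ∧
      |curl (u t) x 2 - curl v0 x 2| ≤ 1 / 100 := by
    intro x hx
    have := curl_close h1 hx
    refine ⟨?_, ?_, ?_⟩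
    · have h := this 0
      rw [(hvh x hx).1] at h
      simpa using h.trans (by norm_num)
    · have h := this 1
      rw [(hvh x hx).2] at h
      simpa using h.trans (by norm_num)
    · exact (this 2).trans (by norm_num)
  have hlab := hLABEL (φ t) J (curl (u 0)) (curl (u t)) (fun x => curl v0 x 2) C C
    (continuousOn_curl (hu.1 0 h00)) hw0 hw1 hvcore hvout hφlip hφM hφw0 hφw1
    (fun X hX => ⟨hφO X hX, (hJ X hX).1, (hJ X hX).2.1, (hJ X hX).2.2⟩)
  have hcont : ContinuousOn (φ t) M := by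
    have := hφc.comp (f := fun X : E => ((t, X) : ℝ × E)) (s := M) (by fun_prop)
      (fun X hX => ⟨htt, hX⟩)
    exact this
  obtain ⟨n₁, hn₁⟩ := hDISP (φ t) (K * t) hcont hφinj hφO hφdisp
    (fun S hS hSm => (hφvol S hS hSm).2.1) hlab
  have hen : ∀ x ∈ M, en 20 (u 0) x ≤ 1 := by
    intro x hx
    have hv := hven x hx
    have e0 := (h0 0 x hx).1
    have e1 := (h0 1 x hx).1
    have e2 := (h0 2 x hx).1
    have hv2 := hv.2
    rw [hv.1] at e2
    unfold en at hv2 ⊢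
    rw [hv.1] at hv2
    rw [abs_le] at e0 e1 e2
    have b0 : |v0 x 0 - 20| ≤ 1 := by
      rw [abs_le]; constructor <;> nlinarith [sq_nonneg (v0 x 1)]
    have b1 : |v0 x 1| ≤ 1 := by
      rw [abs_le]; constructor <;> nlinarith [sq_nonneg (v0 x 0 - 20)]
    rw [abs_le] at b0 b1
    set a := v0 x 0 - 20 with ha
    set b := v0 x 1 with hb
    have f0 : (u 0 x 0 - 20) ^ 2 ≤ a ^ 2 + 2 * (1 / 200) + (1 / 200) ^ 2 := by
      have : u 0 x 0 - 20 = a + (u 0 x 0 - v0 x 0) := by rw [ha]; ring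
      rw [this]
      set d := u 0 x 0 - v0 x 0
      have : |a * d| ≤ 1 * (1 / 200) := by
        rw [abs_mul]
        exact mul_le_mul (abs_le.2 b0) (abs_le.2 e0) (abs_nonneg _) zero_le_one
      have h3 := le_abs_self (a * d)
      nlinarith
    have f1 : (u 0 x 1) ^ 2 ≤ b ^ 2 + 2 * (1 / 200) + (1 / 200) ^ 2 := by
      have : u 0 x 1 = b + (u 0 x 1 - v0 x 1) := by rw [hb]; ring
      rw [this]
      set d := u 0 x 1 - v0 x 1
      have : |b * d| ≤ 1 * (1 / 200) := by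
        rw [abs_mul]
        exact mul_le_mul (abs_le.2 b1) (abs_le.2 e1) (abs_nonneg _) zero_le_one
      have h3 := le_abs_self (b * d)
      nlinarith
    have f2 : (u 0 x 2) ^ 2 ≤ (1 / 200) ^ 2 := by nlinarith
    nlinarith
  obtain ⟨n₂, hn₂⟩ := hDRIFT t u φ K ht0 hK hu hen huK hφ0 hφd hφc
    (fun s hs => ⟨(hφ s hs).2.1, (hφ s hs).1, (hφ s hs).2.2.2.2.2.2.1,
      fun S hS hSm => ⟨((hφ s hs).2.2.2.2.2.2.2 S hS hSm).1, ((hφ s hs).2.2.2.2.2.2.2 S hS hSm).2.2⟩⟩)
  have a1 := hn₁ (max n₁ n₂) (le_max_left _ _)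
  have a2 := hn₂ (max n₁ n₂) (le_max_right _ _)
  have a3 := a2.trans a1
  have hq := qv_pos
  have hc : (0 : ℝ) < ((Jn (max n₁ n₂)).card : ℝ) := by exact_mod_cast jn_pos _
  have hp : 0 < ((Jn (max n₁ n₂)).card : ℝ) * qv := mul_pos hc hq
  nlinarith

end Pool.Agent.Helper75.Slab
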