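import Mathlib

set_option autoImplicit false

/-!
# Flows of Lipschitz fields on `ℝ³`, their derivatives, and transport of vorticity (generic part)
-/

open Set

namespace Pool.Agent.Helper75.Flow

abbrev E := Fin 3 → ℝ

/-- `u` is continuous on `[0,t] × ℝ³` and `K`-Lipschitz in space. -/
def LipField (t K : ℝ) (u : ℝ → E → E) : Prop :=
  0 ≤ K ∧ ContinuousOn (fun z : ℝ × E => u z.1 z.2) (Icc 0 t ×ˢ univ) ∧
  ∀ s ∈ Icc 0 t, ∀ x y, ‖u s x - u s y‖ ≤ K * ‖x - y‖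

/-- `φ` is the flow of `u` on `[0,t]`. -/
def IsFlow (t : ℝ) (u φ : ℝ → E → E) : Prop :=
  (∀ X, φ 0 X = X) ∧
  ∀ X, ∀ s ∈ Icc 0 t, HasDerivWithinAt (fun τ => φ τ X) (u s (φ s X)) (Icc 0 t) s

/-- existence of the flow -/
def G_FL1 : Prop :=
  ∀ (t K : ℝ) (u : ℝ → E → E), 0 ≤ t → LipField t K u → ∃ φ, IsFlow t u φ

/-- Lipschitz bounds in both directions, joint continuity, uniqueness, displacement -/
def G_FL2 : Prop :=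
  ∀ (t K : ℝ) (u φ : ℝ → E → E), 0 ≤ t → LipField t K u → IsFlow t u φ →
    (∀ s ∈ Icc 0 t, ∀ X Y, ‖φ s X - φ s Y‖ ≤ Real.exp (K * s) * ‖X - Y‖ ∧
      ‖X - Y‖ ≤ Real.exp (K * s) * ‖φ s X - φ s Y‖) ∧
    ContinuousOn (fun z : ℝ × E => φ z.1 z.2) (Icc 0 t ×ˢ univ) ∧
    (∀ y : ℝ → E, (∀ s ∈ Icc 0 t, HasDerivWithinAt y (u s (y s)) (Icc 0 t) s) →
      ∀ s ∈ Icc 0 t, y s = φ s (y 0)) ∧
    (∀ C : ℝ, (∀ s ∈ Icc 0 t, ∀ x, ‖u s x‖ ≤ C) → ∀ s ∈ Icc 0 t, ∀ X, ‖φ s X - X‖ ≤ C * s)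

/-- the flow is onto -/
def G_FL3 : Prop :=
  ∀ (t K : ℝ) (u φ : ℝ → E → E), 0 ≤ t → LipField t K u → IsFlow t u φ →
    ∀ s ∈ Icc 0 t, Function.Surjective (φ s)

/-- `J` is the space derivative of the flow on the set `O`, and solves the linearised equation. -/
def IsJac (t : ℝ) (u φ : ℝ → E → E) (O : Set E) (J : ℝ → E → E →L[ℝ] E) : Prop :=
  ∀ X ∈ O, J 0 X = ContinuousLinearMap.id ℝ E ∧ ∀ s ∈ Icc 0 t, HasFDerivAt (φ s) (J s X) X ∧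
    HasDerivWithinAt (fun τ => J τ X) ((fderiv ℝ (u s) (φ s X)).comp (J s X)) (Icc 0 t) s

/-- differentiability of the flow -/
def G_FD : Prop :=
  ∀ (t K : ℝ) (u φ : ℝ → E → E) (O : Set E), 0 ≤ t → LipField t K u → IsFlow t u φ → IsOpen O →
    (∀ X ∈ O, ∀ s ∈ Icc 0 t, φ s X ∈ O) →
    (∀ s ∈ Icc 0 t, ∀ x ∈ O, DifferentiableAt ℝ (u s) x) →
    ContinuousOn (fun z : ℝ × E => fderiv ℝ (u z.1) z.2) (Icc 0 t ×ˢ O) →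
    ∃ J, IsJac t u φ O J ∧ ContinuousOn (fun z : ℝ × E => J z.1 z.2) (Icc 0 t ×ˢ O) ∧
      ∀ s ∈ Icc 0 t, ∀ X ∈ O, ‖J s X‖ ≤ Real.exp (K * s)

/-- Liouville's formula in the trace-free case -/
def G_DET : Prop :=
  ∀ (t : ℝ) (A J : ℝ → E →L[ℝ] E), 0 ≤ t → ContinuousOn A (Icc 0 t) →
    J 0 = ContinuousLinearMap.id ℝ E →
    (∀ s ∈ Icc 0 t, HasDerivWithinAt J ((A s).comp (J s)) (Icc 0 t) s) →
    (∀ s ∈ Icc 0 t, ∑ i, A s (Pi.single i 1) i = 0) → ∀ s ∈ Icc 0 t, (J s).det = 1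

/-- the curl of a field with derivative `L` -/
noncomputable def curlL (L : E →L[ℝ] E) : E :=
  ![L (Pi.single 1 1) 2 - L (Pi.single 2 1) 1, L (Pi.single 2 1) 0 - L (Pi.single 0 1) 2,
    L (Pi.single 0 1) 1 - L (Pi.single 1 1) 0]

/-- `u` solves the Euler equation with pressure gradient `g` on `[0,t]`, on the open set `O`
(`u` itself is a globally defined Lipschitz field). -/
def EulerOn (t K : ℝ) (u g : ℝ → E → E) (O : Set E) : Prop :=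
  0 ≤ t ∧ LipField t K u ∧ IsOpen O ∧
  (∀ s ∈ Icc 0 t, ∀ x ∈ O, DifferentiableAt ℝ (u s) x) ∧
  ContinuousOn (fun z : ℝ × E => fderiv ℝ (u z.1) z.2) (Icc 0 t ×ˢ O) ∧
  (∀ s ∈ Icc 0 t, ∀ x ∈ O, ∑ i, fderiv ℝ (u s) x (Pi.single i 1) i = 0) ∧
  (∀ s ∈ Icc 0 t, ∀ x ∈ O, DifferentiableAt ℝ (g s) x) ∧
  ContinuousOn (fun z : ℝ × E => g z.1 z.2) (Icc 0 t ×ˢ O) ∧
  ContinuousOn (fun z : ℝ × E => fderiv ℝ (g z.1) z.2) (Icc 0 t ×ˢ O) ∧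
  (∀ s ∈ Icc 0 t, ∀ x ∈ O, ∀ i j : Fin 3,
    fderiv ℝ (g s) x (Pi.single j 1) i = fderiv ℝ (g s) x (Pi.single i 1) j) ∧
  ∀ s ∈ Icc 0 t, ∀ x ∈ O, HasDerivWithinAt (fun τ => u τ x)
    (-(fderiv ℝ (u s) x (u s x)) - g s x) (Icc 0 t) s

/-- the velocity gradient along a particle path, times the deformation gradient, is differentiable:
`(A J)' = - (D g) J` -/
def G_AJ : Prop :=
  ∀ (t K : ℝ) (u g φ : ℝ → E → E) (O : Set E) (J : ℝ → E → E →L[ℝ] E),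
    EulerOn t K u g O → IsFlow t u φ → (∀ X ∈ O, ∀ s ∈ Icc 0 t, φ s X ∈ O) → IsJac t u φ O J →
    ContinuousOn (fun z : ℝ × E => J z.1 z.2) (Icc 0 t ×ˢ O) →
    ∀ X ∈ O, ∀ s ∈ Icc 0 t, HasDerivWithinAt
      (fun τ => (fderiv ℝ (u τ) (φ τ X)).comp (J τ X))
      (-((fderiv ℝ (g s) (φ s X)).comp (J s X))) (Icc 0 t) s

/-- the vorticity is frozen into the flow -/
def G_VORT : Prop :=
  ∀ (t K : ℝ) (u g φ : ℝ → E → E) (O : Set E) (J : ℝ → E → E →L[ℝ] E),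
    EulerOn t K u g O → IsFlow t u φ → (∀ X ∈ O, ∀ s ∈ Icc 0 t, φ s X ∈ O) → IsJac t u φ O J →
    ContinuousOn (fun z : ℝ × E => J z.1 z.2) (Icc 0 t ×ˢ O) →
    (∀ X ∈ O, ∀ s ∈ Icc 0 t, (J s X).det = 1) →
    ∀ X ∈ O, ∀ s ∈ Icc 0 t,
      curlL (fderiv ℝ (u s) (φ s X)) = J s X (curlL (fderiv ℝ (u 0) X))

end Pool.Agent.Helper75.Flow
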