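import Pool.Agent.Helper75.Slab.Defs
import Pool.Agent.Helper75.Slab.FlowGoals

set_option autoImplicit false

/-!
# Wandering Euler flows in the slab: goals
-/

open Set MeasureTheory

namespace Pool.Agent.Helper75.Slab

open Pool.Agent.Helper75.Flow (LipField IsFlow IsJac EulerOn curlL G_FL1 G_FL2 G_FL3 G_FD G_DET G_AJ
  G_VORT)

/-- the open slab -/
def O : Set E := {x | 0 < x 2 ∧ x 2 < 1}

/-- nearest point of the slab -/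
noncomputable def clamp (x : E) : E := ![x 0, x 1, max 0 (min (x 2) 1)]

/-- extension of a field from the slab to `ℝ³` -/
noncomputable def ext (u : ℝ → E → E) : ℝ → E → E := fun s x => u s (clamp x)

/-- vorticity, defined with the partial derivatives of the closed slab -/
noncomputable def curl (v : E → E) (x : E) : E :=
  ![pd 1 (fun z => v z 2) x - pd 2 (fun z => v z 1) x,
    pd 2 (fun z => v z 0) x - pd 0 (fun z => v z 2) x,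
    pd 0 (fun z => v z 1) x - pd 1 (fun z => v z 0) x]

/-! ## From the slab to the generic statements -/

def G_CONV : Prop :=
  ∀ (t : ℝ) (u : ℝ → E → E), 0 ≤ t → IsEulerSolution t u →
    ∃ (K : ℝ) (g : ℝ → E → E), EulerOn t K (ext u) g O ∧
      (∀ s ∈ Icc 0 t, ∀ x, ‖ext u s x‖ ≤ K) ∧
      ∀ s ∈ Icc 0 t, ∀ x ∈ O, curl (u s) x = curlL (fderiv ℝ (ext u s) x)

def G_WALL : Prop :=
  ∀ (t K : ℝ) (u φ : ℝ → E → E), 0 ≤ t → LipField t K (ext u) → IsFlow t (ext u) φ →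
    (∀ s ∈ Icc 0 t, ∀ x ∈ M, x 2 = 0 ∨ x 2 = 1 → u s x 2 = 0) →
    ∀ s ∈ Icc 0 t, (∀ X ∈ M, φ s X ∈ M) ∧ (∀ X ∈ O, φ s X ∈ O) ∧
      (∀ X, X 2 = 0 → φ s X 2 = 0) ∧ (∀ X, X 2 = 1 → φ s X 2 = 1)

def G_VOL : Prop :=
  ∀ (φ : E → E) (J : E → E →L[ℝ] E), InjOn φ O →
    (∀ X ∈ O, HasFDerivAt φ (J X) X ∧ (J X).det = 1) → ∀ S ⊆ O, MeasurableSet S →
      MeasurableSet (φ '' S) ∧ volume (φ '' S) = volume S ∧
      ∀ f : E → ℝ, ∫ X in S, f (φ X) = ∫ x in φ '' S, f x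

/-! ## Geometry of the sites -/

/-- the sites: boxes of half-size `n` about `(4^n, 0)`, `n = 0, 1, 2, ...` -/
def sites : Set (ℤ × ℤ) := {j | ∃ n : ℕ, |j.1 - 4 ^ n| ≤ n ∧ |j.2| ≤ n}

/-- the sites of the `n`-th box -/
noncomputable def Jn (n : ℕ) : Finset (ℤ × ℤ) :=
  Finset.Icc ((4 : ℤ) ^ n - n) (4 ^ n + n) ×ˢ Finset.Icc (-(n : ℤ)) n

/-- squared horizontal distance from `x` to the axis of the site `j` -/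
def dist2 (j : ℤ × ℤ) (x : E) : ℝ := (x 0 - 4 * j.1) ^ 2 + (x 1 - 4 * j.2) ^ 2

/-- the core cylinder of the site `j` -/
def Core (j : ℤ × ℤ) : Set E := {x | x ∈ O ∧ dist2 j x < 9 / 10}

/-- volume of a core cylinder -/
noncomputable def qv : ℝ := (volume (Core (0, 0))).toReal

/-- a big box -/
def Bx (c R : ℝ) : Set E := {x | x ∈ M ∧ |x 0 - c| ≤ R ∧ |x 1| ≤ R}

/-- energy density of the deviation from the uniform flow `(U, 0, 0)` -/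
def en (U : ℝ) (v : E → E) (x : E) : ℝ := (v x 0 - U) ^ 2 + (v x 1) ^ 2 + (v x 2) ^ 2

/-! ## The initial velocity -/

noncomputable def prof (q : ℝ) : ℝ := Real.smoothTransition (2 - q)

open Classical in
/-- the initial velocity: uniform flow `(20, 0, 0)` plus a columnar vortex at every site -/
noncomputable def v0 (x : E) : E :=
  if (round (x 0 / 4), round (x 1 / 4)) ∈ sites then
    ![20 - prof ((x 0 - 4 * round (x 0 / 4)) ^ 2 + (x 1 - 4 * round (x 1 / 4)) ^ 2) / 2 *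
          (x 1 - 4 * round (x 1 / 4)),
      prof ((x 0 - 4 * round (x 0 / 4)) ^ 2 + (x 1 - 4 * round (x 1 / 4)) ^ 2) / 2 *
          (x 0 - 4 * round (x 0 / 4)), 0]
  else ![20, 0, 0]

/-- `v0` is smooth, with bounded derivatives of every order -/
def G_V0A : Prop :=
  ContDiff ℝ ((⊤ : ℕ∞) : WithTop ℕ∞) v0 ∧ ∀ n : ℕ, ∃ C : ℝ, ∀ x, ‖iteratedFDeriv ℝ n v0 x‖ ≤ C

/-- vorticity, divergence and energy density of `v0` -/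
def G_V0B : Prop :=
  IsVelocity v0 ∧ ContinuousOn (curl v0) M ∧
  (∀ x ∈ M, curl v0 x 0 = 0 ∧ curl v0 x 1 = 0) ∧
  (∀ x ∈ M, ∀ j ∈ sites, dist2 j x ≤ 1 → curl v0 x 2 = 1) ∧
  (∀ x ∈ M, (∀ j ∈ sites, 3 / 2 ≤ dist2 j x) → curl v0 x 2 ≤ 1 / 2) ∧
  ∀ x ∈ M, v0 x 2 = 0 ∧ en 20 v0 x ≤ 1 / 2

/-! ## Vortex tubes -/

/-- approximate vortex lines through a given point, parametrised by height -/
def G_CURVE : Prop :=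
  ∀ (om : E → E) (a b : ℝ), ContinuousOn om M →
    (∀ x ∈ M, (x 0 - a) ^ 2 + (x 1 - b) ^ 2 ≤ 1 →
      |om x 0| ≤ 1 / 100 ∧ |om x 1| ≤ 1 / 100 ∧ |om x 2 - 1| ≤ 1 / 100) →
    ∀ X ∈ O, (X 0 - a) ^ 2 + (X 1 - b) ^ 2 < 9 / 10 → ∀ δ : ℝ, 0 < δ →
      ∃ γ γ' : ℝ → E, γ (X 2) = X ∧ ∀ z ∈ Icc (0 : ℝ) 1, γ z 2 = z ∧
        (γ z 0 - a) ^ 2 + (γ z 1 - b) ^ 2 ≤ 1 ∧
        HasDerivWithinAt γ (γ' z) (Icc 0 1) z ∧ ‖γ' z - (om (γ z) 2)⁻¹ • om (γ z)‖ ≤ δ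

/-- a map which transports the vorticity moves core cylinders into slightly larger cylinders -/
def G_LABEL : Prop :=
  ∀ (φ : E → E) (J : E → E →L[ℝ] E) (om₀ om₁ : E → E) (ζ : E → ℝ) (C L : ℝ),
    ContinuousOn om₀ M →
    (∀ x ∈ M, |om₀ x 0| ≤ 1 / 100 ∧ |om₀ x 1| ≤ 1 / 100 ∧ |om₀ x 2 - ζ x| ≤ 1 / 100) →
    (∀ x ∈ M, |om₁ x 0| ≤ 1 / 100 ∧ |om₁ x 1| ≤ 1 / 100 ∧ |om₁ x 2 - ζ x| ≤ 1 / 100) →
    (∀ x ∈ M, ∀ j ∈ sites, dist2 j x ≤ 1 → ζ x = 1) →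
    (∀ x ∈ M, (∀ j ∈ sites, 3 / 2 ≤ dist2 j x) → ζ x ≤ 1 / 2) →
    (∀ X ∈ M, ∀ Y ∈ M, ‖φ X - φ Y‖ ≤ L * ‖X - Y‖) → (∀ X ∈ M, φ X ∈ M) →
    (∀ X ∈ M, X 2 = 0 → φ X 2 = 0) → (∀ X ∈ M, X 2 = 1 → φ X 2 = 1) →
    (∀ X ∈ O, φ X ∈ O ∧ HasFDerivAt φ (J X) X ∧ ‖J X‖ ≤ C ∧ J X (om₀ X) = om₁ (φ X)) →
    ∀ j ∈ sites, ∀ X ∈ Core j, ∃ i ∈ sites, dist2 i (φ X) ≤ 8 / 5

/-- the labelled cylinders are permuted: no mean displacement -/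
def G_DISP : Prop :=
  ∀ (φ : E → E) (D : ℝ), ContinuousOn φ M → InjOn φ M → (∀ X ∈ O, φ X ∈ O) →
    (∀ X ∈ M, ‖φ X - X‖ ≤ D) → (∀ S ⊆ O, MeasurableSet S → volume (φ '' S) = volume S) →
    (∀ j ∈ sites, ∀ X ∈ Core j, ∃ i ∈ sites, dist2 i (φ X) ≤ 8 / 5) →
    ∃ n₀ : ℕ, ∀ n ≥ n₀, ∑ j ∈ Jn n, ∫ X in Core j, (φ X 0 - X 0) ≤ 3 * (Jn n).card * qv

/-! ## Energy -/

/-- divergence theorem in the slab -/
def G_DIV : Prop :=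
  ∀ (F : E → E) (R : ℝ), (∀ i, ContDiffOn ℝ 1 (fun x => F x i) M) →
    (∀ x ∈ M, R ≤ |x 0| ∨ R ≤ |x 1| → F x = 0) → (∀ x ∈ M, x 2 = 0 ∨ x 2 = 1 → F x 2 = 0) →
    ∫ x in M, ∑ i, pd i (fun z => F z i) x = 0

/-- the energy of the deviation from a uniform flow is conserved in huge boxes, up to a small error -/
def G_ENER : Prop :=
  ∀ (t : ℝ) (u : ℝ → E → E), 0 ≤ t → IsEulerSolution t u → ∀ U ρ : ℝ, 0 < ρ →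
    ∃ R₀ : ℝ, ∀ R ≥ R₀, ∀ c : ℝ, ∀ s ∈ Icc 0 t,
      ∫ x in Bx c R, en U (u s) x ≤ (∫ x in Bx c (2 * R), en U (u 0) x) + ρ * R ^ 2

/-! ## Lagrangian summary -/

/-- everything needed about the particle motion of a solution -/
def G_LAG : Prop :=
  ∀ (t : ℝ) (u : ℝ → E → E), 0 ≤ t → IsEulerSolution t u →
    ∃ (K C : ℝ) (φ : ℝ → E → E) (J : E → E →L[ℝ] E), 0 ≤ K ∧
      (∀ s ∈ Icc 0 t, ∀ x ∈ M, ‖u s x‖ ≤ K) ∧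
      (∀ X ∈ M, φ 0 X = X) ∧
      (∀ X ∈ M, ∀ s ∈ Icc 0 t, HasDerivWithinAt (fun τ => φ τ X) (u s (φ s X)) (Icc 0 t) s) ∧
      ContinuousOn (fun z : ℝ × E => φ z.1 z.2) (Icc 0 t ×ˢ M) ∧
      (∀ s ∈ Icc 0 t, (∀ X ∈ M, φ s X ∈ M) ∧ (∀ X ∈ O, φ s X ∈ O) ∧ InjOn (φ s) M ∧
        (∀ X ∈ M, ∀ Y ∈ M, ‖φ s X - φ s Y‖ ≤ C * ‖X - Y‖) ∧
        (∀ X ∈ M, X 2 = 0 → φ s X 2 = 0) ∧ (∀ X ∈ M, X 2 = 1 → φ s X 2 = 1) ∧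
        (∀ X ∈ M, ‖φ s X - X‖ ≤ K * s) ∧
        ∀ S ⊆ O, MeasurableSet S → MeasurableSet (φ s '' S) ∧ volume (φ s '' S) = volume S ∧
          ∀ f : E → ℝ, ∫ X in S, f (φ s X) = ∫ x in φ s '' S, f x) ∧
      ∀ X ∈ O, HasFDerivAt (φ t) (J X) X ∧ ‖J X‖ ≤ C ∧ J X (curl (u 0) X) = curl (u t) (φ t X)

/-- the mean displacement of the core cylinders is large -/
def G_DRIFT : Prop :=
  ∀ (t : ℝ) (u φ : ℝ → E → E) (K : ℝ), 0 ≤ t → 0 ≤ K → IsEulerSolution t u →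
    (∀ x ∈ M, en 20 (u 0) x ≤ 1) →
    (∀ s ∈ Icc 0 t, ∀ x ∈ M, ‖u s x‖ ≤ K) → (∀ X ∈ M, φ 0 X = X) →
    (∀ X ∈ M, ∀ s ∈ Icc 0 t, HasDerivWithinAt (fun τ => φ τ X) (u s (φ s X)) (Icc 0 t) s) →
    ContinuousOn (fun z : ℝ × E => φ z.1 z.2) (Icc 0 t ×ˢ M) →
    (∀ s ∈ Icc 0 t, (∀ X ∈ O, φ s X ∈ O) ∧ (∀ X ∈ M, φ s X ∈ M) ∧
      (∀ X ∈ M, ‖φ s X - X‖ ≤ K * s) ∧
      ∀ S ⊆ O, MeasurableSet S → MeasurableSet (φ s '' S) ∧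
        ∀ f : E → ℝ, ∫ X in S, f (φ s X) = ∫ x in φ s '' S, f x) →
    ∃ n₀ : ℕ, ∀ n ≥ n₀,
      12 * t * (Jn n).card * qv ≤ ∑ j ∈ Jn n, ∫ X in Core j, (φ t X 0 - X 0)

end Pool.Agent.Helper75.Slab
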