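import Pool.Agent.Helper75.Slab.Final

set_option autoImplicit false

open Set MeasureTheory

namespace Pool.Agent.Helper75.Slab

open Pool.Agent.Helper75.Flow (LipField IsFlow IsJac EulerOn curlL G_FL1 G_FL2 G_FL3 G_FD G_DET G_AJ
  G_VORT)

theorem O_sub_M : O ⊆ M := fun _ h => ⟨h.1.le, h.2.le⟩

theorem O_open : IsOpen O := by
  apply IsOpen.inter
  · exact isOpen_lt continuous_const (continuous_apply 2)
  · exact isOpen_lt (continuous_apply 2) continuous_const

theorem clamp_eq {x : E} (hx : x ∈ M) : clamp x = x := by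
  funext i
  fin_cases i
  · rfl
  · rfl
  · show max 0 (min (x 2) 1) = x 2
    rw [min_eq_left hx.2, max_eq_right hx.1]

theorem ext_eq (u : ℝ → E → E) (s : ℝ) {x : E} (hx : x ∈ M) : ext u s x = u s x := by
  unfold ext
  rw [clamp_eq hx]

theorem vol : G_VOL := by
  intro φ J hinj hJ S hSO hSm
  have hd : ∀ X ∈ S, HasFDerivWithinAt φ (J X) S X := fun X hX =>
    (hJ X (hSO hX)).1.hasFDerivWithinAt
  have hinjS : InjOn φ S := hinj.mono hSO
  have hdet : ∀ X ∈ S, |(J X).det| = 1 := fun X hX => by rw [(hJ X (hSO hX)).2, abs_one]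
  refine ⟨measurable_image_of_fderivWithin hSm hd hinjS, ?_, ?_⟩
  · rw [← lintegral_abs_det_fderiv_eq_addHaar_image volume hSm hd hinjS]
    rw [setLIntegral_congr_fun hSm (g := fun _ => 1)]
    · simp
    · intro X hX
      simp [hdet X hX]
  · intro f
    rw [integral_image_eq_integral_abs_det_fderiv_smul volume hSm hd hinjS]
    apply setIntegral_congr_fun hSm
    intro X hX
    simp [hdet X hX]

theorem lag (h1 : G_FL1) (h2 : G_FL2) (hFD : G_FD) (hDET : G_DET) (hVORT : G_VORT)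
    (hCONV : G_CONV) (hWALL : G_WALL) : G_LAG := by
  intro t u ht hu
  obtain ⟨K, g, hE, hbd, hcurl⟩ := hCONV t u ht hu
  have hE' := hE
  obtain ⟨_, hLip, hOo, hdiff, hcontD, hdiv, -, -, -, -, -⟩ := hE'
  obtain ⟨φ, hφ⟩ := h1 t K (ext u) ht hLip
  obtain ⟨hlip, hcont, -, hdisp⟩ := h2 t K (ext u) φ ht hLip hφ
  have hwall := hWALL t K u φ ht hLip hφ (fun s hs x hx h => (hu.1 s hs).2.2.2 x hx h)
  obtain ⟨J, hJ, hJc, hJb⟩ := hFD t K (ext u) φ O ht hLip hφ hOo
    (fun X hX s hs => (hwall s hs).2.1 X hX) hdiff hcontD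
  have hJdet : ∀ X ∈ O, ∀ s ∈ Icc (0 : ℝ) t, (J s X).det = 1 := by
    intro X hX
    apply hDET t (fun s => fderiv ℝ (ext u s) (φ s X)) (fun s => J s X) ht _ (hJ X hX).1
      (fun s hs => ((hJ X hX).2 s hs).2)
    · intro s hs
      exact hdiv s hs _ ((hwall s hs).2.1 X hX)
    · have hc : ContinuousOn (fun s => ((s, φ s X) : ℝ × E)) (Icc 0 t) := by
        apply ContinuousOn.prodMk continuousOn_id
        intro s hs
        exact (hφ.2 X s hs).continuousWithinAt
      exact hcontD.comp hc (fun s hs => ⟨hs, (hwall s hs).2.1 X hX⟩)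
  have hvort := hVORT t K (ext u) g φ O J hE hφ (fun X hX s hs => (hwall s hs).2.1 X hX) hJ hJc hJdet
  have htt : t ∈ Icc (0 : ℝ) t := ⟨ht, le_rfl⟩
  have h00 : (0 : ℝ) ∈ Icc (0 : ℝ) t := ⟨le_rfl, ht⟩
  have hK := hLip.1
  refine ⟨K, Real.exp (K * t), φ, J t, hK, ?_, ?_, ?_, ?_, ?_, ?_⟩
  · intro s hs x hx
    rw [← ext_eq u s hx]
    exact hbd s hs x
  · intro X _
    exact hφ.1 X
  · intro X hX s hs
    rw [← ext_eq u s ((hwall s hs).1 X hX)]
    exact hφ.2 X s hs
  · exact hcont.mono (prod_mono le_rfl (subset_univ _))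
  · intro s hs
    have hinj : Function.Injective (φ s) := by
      intro X Y hXY
      have := (hlip s hs X Y).2
      rw [hXY, sub_self, norm_zero, mul_zero] at this
      exact sub_eq_zero.1 (norm_le_zero_iff.1 this)
    have hvol := vol (φ s) (J s) hinj.injOn
      (fun X hX => ⟨((hJ X hX).2 s hs).1, hJdet X hX s hs⟩)
    refine ⟨(hwall s hs).1, (hwall s hs).2.1, hinj.injOn, ?_, ?_, ?_, ?_, hvol⟩
    · intro X _ Y _
      refine (hlip s hs X Y).1.trans ?_
      apply mul_le_mul_of_nonneg_right _ (norm_nonneg _)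
      apply Real.exp_le_exp.2
      exact mul_le_mul_of_nonneg_left hs.2 hK
    · intro X _ h
      exact (hwall s hs).2.2.1 X h
    · intro X _ h
      exact (hwall s hs).2.2.2 X h
    · intro X _
      exact hdisp K hbd s hs X
  · intro X hX
    refine ⟨((hJ X hX).2 t htt).1, hJb t htt X hX, ?_⟩
    have h := hvort X hX t htt
    rw [← hcurl t htt _ ((hwall t htt).2.1 X hX), ← hcurl 0 h00 X hX] at h
    exact h.symm

end Pool.Agent.Helper75.Slab
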